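import Pool.Agent.N718.DC.Stm2
import Pool.Agent.W174.HB.HM
import Pool.Agent.W351.HB.PF
import Pool.Agent.W215.HB.Bilo
import Pool.Agent.W864.HB.Bilt
import Pool.Agent.W335.BMX.Odd
import Pool.Agent.W975.BMX.Two

/-!
# The conic over a sample point is soluble over the rational numbers (project DC, part ARI)
-/

set_option autoImplicit false
set_option linter.all false

namespace Pool.Agent.N286.DC

open Pool.Agent.W313.BMX Pool.Agent.N718.DC

/-! ### Conics and symbols -/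

theorem sol_of_splits {K : Type} [Field K] {A B C : K} (hC : C ≠ 0) (h : Splits (A * C) (B * C)) :
    Sol A B C := by
  obtain ⟨x, y, z, h0, h1⟩ := h
  refine ⟨x, y, z / C, ?_, ?_⟩
  · rcases h0 with h0 | h0 | h0
    · exact Or.inl h0
    · exact Or.inr (Or.inl h0)
    · exact Or.inr (Or.inr (div_ne_zero h0 hC))
  · have h2 : C * (z / C) ^ 2 = z ^ 2 / C := by field_simp
    rw [h2, h1]
    field_simp

theorem splits_of_sol {K : Type} [Field K] {A B C : K} (hC : C ≠ 0) (h : Sol A B C) :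
    Splits (A * C) (B * C) := by
  obtain ⟨u, v, w, h0, h1⟩ := h
  refine ⟨u, v, C * w, ?_, ?_⟩
  · rcases h0 with h0 | h0 | h0
    · exact Or.inl h0
    · exact Or.inr (Or.inl h0)
    · exact Or.inr (Or.inr (mul_ne_zero hC h0))
  · have h2 : (C * w) ^ 2 = C * (C * w ^ 2) := by ring
    rw [h2, ← h1]
    ring

theorem sol_scale {K : Type} [Field K] {A B C a b c : K} (ha : a ≠ 0) (hb : b ≠ 0) (hc : c ≠ 0)
    (h : Sol A B C) : Sol (A * a ^ 2) (B * b ^ 2) (C * c ^ 2) := by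
  obtain ⟨u, v, w, h0, h1⟩ := h
  refine ⟨u / a, v / b, w / c, ?_, ?_⟩
  · rcases h0 with h0 | h0 | h0
    · exact Or.inl (div_ne_zero h0 ha)
    · exact Or.inr (Or.inl (div_ne_zero h0 hb))
    · exact Or.inr (Or.inr (div_ne_zero h0 hc))
  · have e1 : A * a ^ 2 * (u / a) ^ 2 = A * u ^ 2 := by field_simp
    have e2 : B * b ^ 2 * (v / b) ^ 2 = B * v ^ 2 := by field_simp
    have e3 : C * c ^ 2 * (w / c) ^ 2 = C * w ^ 2 := by field_simp
    rw [e1, e2, e3, h1]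

/-! ### Jacobi symbols depending on classes -/

theorem jac_class {M m : ℕ} (h2 : 2 ∣ M) (hm : ∀ p : ℕ, p.Prime → p ∣ M → p ^ 3 ∣ m) {b b' : ℕ}
    (hb : Odd b) (hb' : Odd b') (hbb : b ≡ b' [MOD m]) (G : ℕ) :
    (∀ p : ℕ, p.Prime → p ∣ G → p ∣ M) → G ≠ 0 → jacobiSym (G : ℤ) b = jacobiSym (G : ℤ) b' := by
  induction G using induction_on_primes with
  | zero => intro _ h; exact absurd rfl h
  | one => intro _ _; simp
  | prime_mul p a hp ih =>
    intro hG h0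
    have ha0 : a ≠ 0 := by rintro rfl; simp at h0
    have h8 : 8 ∣ m := by simpa using hm 2 Nat.prime_two h2
    have hpm : p ^ 3 ∣ m := hm p hp (hG p hp (dvd_mul_right p a))
    have h4p : 4 * p ∣ m := by
      rcases hp.eq_two_or_odd' with rfl | ho
      · simpa using h8
      · apply Nat.Coprime.mul_dvd_of_dvd_of_dvd
        · have h1 : Nat.Coprime 2 p := (Nat.coprime_two_left (n := p)).2 ho
          have h3 : Nat.Coprime (2 ^ 2) p := Nat.Coprime.pow_left 2 h1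
          simpa using h3
        · exact (by norm_num : (4 : ℕ) ∣ 8).trans h8
        · exact (dvd_pow_self p (by norm_num)).trans hpm
    have e1 : jacobiSym (p : ℤ) b = jacobiSym (p : ℤ) b' := by
      rw [jacobiSym.mod_right' p hb, jacobiSym.mod_right' p hb']
      have h5 : b % (4 * p) = b' % (4 * p) := hbb.of_dvd h4p
      rw [h5]
    rw [Nat.cast_mul, jacobiSym.mul_left, jacobiSym.mul_left, e1,
      ih (fun q hq hqa => hG q hq (dvd_mul_of_dvd_right hqa p)) ha0]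

theorem jac_sign {b b' : ℕ} (hb : Odd b) (hb' : Odd b') (hbb : b ≡ b' [MOD 4]) {s : ℤ}
    (hs : s = 1 ∨ s = -1) : jacobiSym s b = jacobiSym s b' := by
  rcases hs with rfl | rfl
  · simp
  · rw [jacobiSym.mod_right (-1) hb, jacobiSym.mod_right (-1) hb']
    have h6 : b % 4 = b' % 4 := hbb
    have h5 : b % (4 * (-1 : ℤ).natAbs) = b' % (4 * (-1 : ℤ).natAbs) := by simpa using h6
    rw [h5]

/-- the sign of quadratic reciprocity -/
def qr (a b : ℕ) : ℤ := (-1) ^ (a / 2 * (b / 2))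

theorem qr_class {a a' b b' : ℕ} (ha : a ≡ a' [MOD 4]) (hb : b ≡ b' [MOD 4]) :
    qr a b = qr a' b' := by
  unfold qr
  apply neg_one_pow_congr
  have h1 : a % 4 = a' % 4 := ha
  have h2 : b % 4 = b' % 4 := hb
  rw [Nat.even_mul, Nat.even_mul, Nat.even_iff, Nat.even_iff, Nat.even_iff, Nat.even_iff]
  constructor <;> intro h <;> omega

theorem qr_sq (a b : ℕ) : qr a b = 1 ∨ qr a b = -1 := by
  unfold qr
  exact neg_one_pow_eq_or ℤ _

theorem jac_swap {a b : ℕ} (ha : Odd a) (hb : Odd b) :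
    jacobiSym (a : ℤ) b = qr a b * jacobiSym (b : ℤ) a :=
  jacobiSym.quadratic_reciprocity ha hb

/-! ### The data of a sample -/

/-- The primes `P` and the values `F` at a sample point. -/
structure Smp (M : ℕ) (f : Fin 3 → ℤ) (g : Fin 3 → ℕ) (s : Fin 3 → ℤ) (F : Fin 3 → ℤ)
    (P : Fin 3 → ℕ) : Prop where
  hF : ∀ l, (M : ℤ) ∣ F l - f l
  hP : ∀ l, (P l).Prime ∧ s l * F l = g l * P l

section

variable {M : ℕ} {f : Fin 3 → ℤ} {g : Fin 3 → ℕ} {s : Fin 3 → ℤ}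

theorem Smp.val {F : Fin 3 → ℤ} {P : Fin 3 → ℕ} (h : Smp M f g s F P) (hM : 1 ≤ M)
    (hg : ∀ l, g l ∣ M) (hs : ∀ l, s l = 1 ∨ s l = -1) (l : Fin 3) {n : ℤ} (hn : f l = g l * n) :
    ∃ k : ℤ, F l = g l * (n + ((M / g l : ℕ) : ℤ) * k) ∧
      (P l : ℤ) = s l * (n + ((M / g l : ℕ) : ℤ) * k) := by
  obtain ⟨k, hk⟩ := h.hF l
  have hg0 : 0 < g l := Nat.pos_of_dvd_of_pos (hg l) hM
  have hMg : (M : ℤ) = g l * ((M / g l : ℕ) : ℤ) := by
    exact_mod_cast (Nat.mul_div_cancel' (hg l)).symm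
  have e1 : F l = g l * (n + ((M / g l : ℕ) : ℤ) * k) := by
    have : F l = f l + M * k := by linarith
    rw [this, hn]
    conv_lhs => rw [hMg]
    ring
  refine ⟨k, e1, ?_⟩
  have h2 := (h.hP l).2
  rw [e1] at h2
  have h3 : (g l : ℤ) ≠ 0 := by exact_mod_cast hg0.ne'
  apply mul_left_cancel₀ h3
  rw [← h2]
  ring

theorem Smp.ndvd {F : Fin 3 → ℤ} {P : Fin 3 → ℕ} (h : Smp M f g s F P) (hM : 1 ≤ M)
    (hg : ∀ l, g l ∣ M ∧ ∀ p : ℕ, p.Prime → p ∣ M → p ^ 3 ∣ M / g l)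
    (hs : ∀ l, s l = 1 ∨ s l = -1)
    (hf : ∀ l, ∃ n : ℤ, f l = g l * n ∧ IsCoprime n (M : ℤ)) (l : Fin 3) : ¬ P l ∣ M := by
  intro hd
  obtain ⟨n, hn, hco⟩ := hf l
  obtain ⟨k, -, hk⟩ := h.val hM (fun l => (hg l).1) hs l hn
  have hpr := (h.hP l).1
  have h1 : P l ∣ M / g l := (dvd_pow_self _ (by norm_num)).trans ((hg l).2 _ hpr hd)
  have h2 : ((P l : ℕ) : ℤ) ∣ ((M / g l : ℕ) : ℤ) := by exact_mod_cast h1
  have h3 : ((P l : ℕ) : ℤ) ∣ s l * n := by
    have : s l * n = (P l : ℤ) - ((M / g l : ℕ) : ℤ) * (s l * k) := by rw [hk]; ring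
    rw [this]
    exact dvd_sub (dvd_refl _) (dvd_mul_of_dvd_left h2 _)
  have h4 : ((P l : ℕ) : ℤ) ∣ n := by
    rcases hs l with h5 | h5
    · simpa [h5] using h3
    · simpa [h5] using h3
  have h6 : ((P l : ℕ) : ℤ) ∣ (M : ℤ) := by exact_mod_cast hd
  have h7 : IsUnit ((P l : ℕ) : ℤ) := hco.isUnit_of_dvd' h4 h6
  rw [Int.isUnit_iff_natAbs_eq] at h7
  simp at h7
  exact hpr.one_lt.ne' h7

theorem Smp.odd {F : Fin 3 → ℤ} {P : Fin 3 → ℕ} (h : Smp M f g s F P) (hM : 1 ≤ M) (h2 : 2 ∣ M)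
    (hg : ∀ l, g l ∣ M ∧ ∀ p : ℕ, p.Prime → p ∣ M → p ^ 3 ∣ M / g l)
    (hs : ∀ l, s l = 1 ∨ s l = -1)
    (hf : ∀ l, ∃ n : ℤ, f l = g l * n ∧ IsCoprime n (M : ℤ)) (l : Fin 3) : Odd (P l) := by
  rcases (h.hP l).1.eq_two_or_odd' with h3 | h3
  · exact absurd (h3 ▸ h2) (h.ndvd hM hg hs hf l)
  · exact h3

theorem Smp.cls {F F' : Fin 3 → ℤ} {P P' : Fin 3 → ℕ} (h : Smp M f g s F P)
    (h' : Smp M f g s F' P') (hM : 1 ≤ M) (hg : ∀ l, g l ∣ M) (hs : ∀ l, s l = 1 ∨ s l = -1)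
    (l : Fin 3) {n : ℤ} (hn : f l = g l * n) : P l ≡ P' l [MOD (M / g l)] := by
  obtain ⟨k, -, hk⟩ := h.val hM hg hs l hn
  obtain ⟨k', -, hk'⟩ := h'.val hM hg hs l hn
  have : ((P l : ℕ) : ℤ) ≡ ((P' l : ℕ) : ℤ) [ZMOD ((M / g l : ℕ) : ℤ)] := by
    rw [Int.modEq_iff_dvd, hk, hk']
    exact ⟨s l * (k' - k), by ring⟩
  exact (Int.natCast_modEq_iff).1 this

end

/-! ### Local solubility -/

theorem real_sol {s F : Fin 3 → ℤ} (hs : ∀ l, s l = 1 ∨ s l = -1) (h1 : ¬ (s 0 = 1 ∧ s 1 = 1 ∧ s 2 = -1))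
    (h2 : ¬ (s 0 = -1 ∧ s 1 = -1 ∧ s 2 = 1)) (hF : ∀ l, 0 < s l * F l) :
    Splits (((F 0 * F 2 : ℤ)) : ℝ) (((F 1 * F 2 : ℤ)) : ℝ) := by
  have key : 0 < F 0 * F 2 ∨ 0 < F 1 * F 2 := by
    have a0 := hF 0
    have a1 := hF 1
    have a2 := hF 2
    rcases hs 0 with e0 | e0 <;> rcases hs 1 with e1 | e1 <;> rcases hs 2 with e2 | e2 <;>
      rw [e0] at a0 <;> rw [e1] at a1 <;> rw [e2] at a2
    · left; nlinarith
    · exact absurd ⟨e0, e1, e2⟩ h1
    · left; nlinarith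
    · right; nlinarith
    · right; nlinarith
    · left; nlinarith
    · exact absurd ⟨e0, e1, e2⟩ h2
    · left; nlinarith
  rcases key with h | h
  · refine ⟨1, 0, Real.sqrt ((F 0 * F 2 : ℤ) : ℝ), Or.inl one_ne_zero, ?_⟩
    rw [Real.sq_sqrt (by exact_mod_cast h.le)]
    ring
  · refine ⟨0, 1, Real.sqrt ((F 1 * F 2 : ℤ) : ℝ), Or.inr (Or.inl one_ne_zero), ?_⟩
    rw [Real.sq_sqrt (by exact_mod_cast h.le)]
    ring

/-- two units which are congruent modulo `p ^ 3` differ by a square -/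
theorem unit_sq {p : ℕ} [hp : Fact p.Prime] {m n : ℤ} (hm : ¬ (p : ℤ) ∣ m)
    (hmn : (p : ℤ) ^ 3 ∣ n - m) : ∃ c : ℚ_[p], c ≠ 0 ∧ (n : ℚ_[p]) = (m : ℚ_[p]) * c ^ 2 := by
  have hpn : ¬ (p : ℤ) ∣ n := by
    intro h
    apply hm
    have h1 : (p : ℤ) ∣ n - m := (dvd_pow_self _ (by norm_num)).trans hmn
    have : m = n - (n - m) := by ring
    rw [this]
    exact dvd_sub h h1
  have hsq : IsSquare ((m * n : ℤ) : ℚ_[p]) := by
    by_cases hp2 : p = 2
    · subst hp2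
      have hm' : m % 2 = 1 := by
        have : ¬ (2 : ℤ) ∣ m := by simpa using hm
        omega
      have h8 : (8 : ℤ) ∣ n - m := by simpa using hmn
      have := Pool.Agent.W975.BMX.two1 m n hm' (by omega)
      exact this
    · apply Pool.Agent.W335.BMX.odd1 p hp2 m n hm hpn
      have h1 : (p : ℤ) ∣ n - m := (dvd_pow_self _ (by norm_num)).trans hmn
      have h2 : ((m : ℤ) : ZMod p) = ((n : ℤ) : ZMod p) := by
        rw [ZMod.intCast_eq_intCast_iff_dvd_sub]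
        exact h1
      unfold legendreSym
      rw [h2]
  obtain ⟨r, hr⟩ := hsq
  have hm0 : (m : ℚ_[p]) ≠ 0 := by
    intro h
    have : m = 0 := by exact_mod_cast h
    exact hm (this ▸ dvd_zero _)
  have hn0 : (n : ℚ_[p]) ≠ 0 := by
    intro h
    have : n = 0 := by exact_mod_cast h
    exact hpn (this ▸ dvd_zero _)
  push_cast at hr
  have hr0 : r ≠ 0 := by
    rintro rfl
    rw [mul_zero] at hr
    exact mul_ne_zero hm0 hn0 hr
  refine ⟨r / m, div_ne_zero hr0 hm0, ?_⟩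
  have : (m : ℚ_[p]) * (r / m) ^ 2 = r * r / m := by field_simp
  rw [this, ← hr]
  field_simp

/-- an integer with trivial Legendre symbol is a square -/
theorem leg_sq {p : ℕ} [hp : Fact p.Prime] (hp2 : p ≠ 2) {m : ℤ} (hm : ¬ (p : ℤ) ∣ m)
    (h : jacobiSym m p = 1) : IsSquare ((m : ℤ) : ℚ_[p]) := by
  have h1 : ¬ (p : ℤ) ∣ 1 := by
    intro h
    have h2 : (p : ℤ) ≤ 1 := Int.le_of_dvd one_pos h
    have := hp.out.one_lt
    omega
  have := Pool.Agent.W335.BMX.odd1 p hp2 m 1 hm h1 (by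
    rw [jacobiSym.legendreSym.to_jacobiSym, h, legendreSym.at_one])
  simpa using this

theorem pf0 : Pool.Agent.W313.HB.S_PF :=
  Pool.Agent.W351.HB.PF.pf_ Pool.Agent.W215.HB.bilo_ Pool.Agent.W864.HBm.bilt_

/-- The conic is soluble if two of the symbols are trivial. -/
theorem sol_main {M : ℕ} {f : Fin 3 → ℤ} {g : Fin 3 → ℕ} {s : Fin 3 → ℤ} (hM : 1 ≤ M)
    (h2M : 2 ∣ M) (hg : ∀ l, g l ∣ M ∧ ∀ p : ℕ, p.Prime → p ∣ M → p ^ 3 ∣ M / g l)
    (hf : ∀ l, ∃ n : ℤ, f l = g l * n ∧ IsCoprime n (M : ℤ)) (hs : ∀ l, s l = 1 ∨ s l = -1)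
    (h1 : ¬ (s 0 = 1 ∧ s 1 = 1 ∧ s 2 = -1)) (h2 : ¬ (s 0 = -1 ∧ s 1 = -1 ∧ s 2 = 1))
    (hl : ∀ (p : ℕ) [Fact p.Prime], p ∣ M →
      Sol ((f 0 : ℤ) : ℚ_[p]) ((f 1 : ℤ) : ℚ_[p]) ((f 2 : ℤ) : ℚ_[p]))
    {F : Fin 3 → ℤ} {P : Fin 3 → ℕ} (h : Smp M f g s F P)
    (h01 : P 0 ≠ P 1) (h02 : P 0 ≠ P 2) (h12 : P 1 ≠ P 2)
    (hJ0 : jacobiSym (F 1 * F 2) (P 0) = 1) (hJ1 : jacobiSym (F 0 * F 2) (P 1) = 1) :
    Sol ((F 0 : ℤ) : ℚ) ((F 1 : ℤ) : ℚ) ((F 2 : ℤ) : ℚ) := by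
  have hgp : ∀ l, 0 < g l := fun l => Nat.pos_of_dvd_of_pos (hg l).1 hM
  have hpos : ∀ l, 0 < s l * F l := by
    intro l
    rw [(h.hP l).2]
    have := (h.hP l).1.pos
    have := hgp l
    positivity
  have hF0 : ∀ l, F l ≠ 0 := by
    intro l h0
    have := hpos l
    rw [h0, mul_zero] at this
    exact lt_irrefl _ this
  have hnd := h.ndvd hM hg hs hf
  have hod := h.odd hM h2M hg hs hf
  -- a prime dividing `F l` divides `M` or is `P l`
  have hdv : ∀ (p : ℕ), p.Prime → ∀ l, (p : ℤ) ∣ F l → p ∣ M ∨ p = P l := by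
    intro p hp l hd
    have h3 : (p : ℤ) ∣ (g l : ℤ) * (P l : ℤ) := by
      rw [← (h.hP l).2]
      exact dvd_mul_of_dvd_right hd _
    have h4 : p ∣ g l * P l := by exact_mod_cast h3
    rcases (hp.dvd_mul).1 h4 with h5 | h5
    · exact Or.inl (h5.trans (hg l).1)
    · exact Or.inr ((Nat.prime_dvd_prime_iff_eq hp (h.hP l).1).1 h5)
  have hre := real_sol hs h1 h2 hpos
  have hloc : ∀ (p : ℕ) [Fact p.Prime], p ≠ P 2 →
      Splits ((F 0 * F 2 : ℤ) : ℚ_[p]) ((F 1 * F 2 : ℤ) : ℚ_[p]) := by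
    intro p hp hp2
    have hz : ((F 2 : ℤ) : ℚ_[p]) ≠ 0 := by exact_mod_cast hF0 2
    by_cases hpM : p ∣ M
    · have h3 : ∀ l, ∃ c : ℚ_[p], c ≠ 0 ∧ ((F l : ℤ) : ℚ_[p]) = ((f l : ℤ) : ℚ_[p]) * c ^ 2 := by
        intro l
        obtain ⟨n, hn, hco⟩ := hf l
        obtain ⟨k, hk, -⟩ := h.val hM (fun l => (hg l).1) hs l hn
        have hpn : ¬ (p : ℤ) ∣ n := by
          intro h4
          have h6 : (p : ℤ) ∣ (M : ℤ) := by exact_mod_cast hpM
          have h7 : IsUnit (p : ℤ) := hco.isUnit_of_dvd' h4 h6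
          rw [Int.isUnit_iff_natAbs_eq] at h7
          simp at h7
          exact hp.out.one_lt.ne' h7
        have h5 : (p : ℤ) ^ 3 ∣ (n + ((M / g l : ℕ) : ℤ) * k) - n := by
          have h6 : (p : ℤ) ^ 3 ∣ ((M / g l : ℕ) : ℤ) := by exact_mod_cast (hg l).2 p hp.out hpM
          have : (n + ((M / g l : ℕ) : ℤ) * k) - n = ((M / g l : ℕ) : ℤ) * k := by ring
          rw [this]
          exact dvd_mul_of_dvd_left h6 _
        obtain ⟨c, hc0, hc⟩ := unit_sq hpn h5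
        refine ⟨c, hc0, ?_⟩
        rw [hk, hn, Int.cast_mul, Int.cast_mul, hc]
        ring
      obtain ⟨c0, hc0, e0⟩ := h3 0
      obtain ⟨c1, hc1, e1⟩ := h3 1
      obtain ⟨c2, hc2, e2⟩ := h3 2
      have h4 := sol_scale hc0 hc1 hc2 (hl p hpM)
      rw [← e0, ← e1, ← e2] at h4
      have h5 := splits_of_sol hz h4
      push_cast
      exact h5
    · have hpne2 : p ≠ 2 := fun h3 => hpM (h3 ▸ h2M)
      by_cases hp0 : p = P 0
      · have hnd12 : ¬ (p : ℤ) ∣ F 1 * F 2 := by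
          intro h3
          rcases Int.Prime.dvd_mul' hp.out h3 with h3 | h3
          · rcases hdv p hp.out 1 h3 with h3 | h3
            · exact hpM h3
            · exact h01 (hp0.symm.trans h3)
          · rcases hdv p hp.out 2 h3 with h3 | h3
            · exact hpM h3
            · exact h02 (hp0.symm.trans h3)
        obtain ⟨r, hr⟩ := leg_sq hpne2 hnd12 (by rw [hp0]; exact hJ0)
        refine ⟨0, 1, r, Or.inr (Or.inl one_ne_zero), ?_⟩
        rw [hr]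
        ring
      · by_cases hp1 : p = P 1
        · have hnd12 : ¬ (p : ℤ) ∣ F 0 * F 2 := by
            intro h3
            rcases Int.Prime.dvd_mul' hp.out h3 with h3 | h3
            · rcases hdv p hp.out 0 h3 with h3 | h3
              · exact hpM h3
              · exact hp0 h3
            · rcases hdv p hp.out 2 h3 with h3 | h3
              · exact hpM h3
              · exact hp2 h3
          obtain ⟨r, hr⟩ := leg_sq hpne2 hnd12 (by rw [hp1]; exact hJ1)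
          refine ⟨1, 0, r, Or.inl one_ne_zero, ?_⟩
          rw [hr]
          ring
        · have hn : ∀ l, ¬ (p : ℤ) ∣ F l := by
            intro l h3
            rcases hdv p hp.out l h3 with h4 | h4
            · exact hpM h4
            · fin_cases l
              · exact hp0 h4
              · exact hp1 h4
              · exact hp2 h4
          apply Pool.Agent.W335.BMX.odd2 p hpne2
          · intro h3
            rcases Int.Prime.dvd_mul' hp.out h3 with h3 | h3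
            · exact hn 0 h3
            · exact hn 2 h3
          · intro h3
            rcases Int.Prime.dvd_mul' hp.out h3 with h3 | h3
            · exact hn 1 h3
            · exact hn 2 h3
  have hA : F 0 * F 2 ≠ 0 := mul_ne_zero (hF0 0) (hF0 2)
  have hB : F 1 * F 2 ≠ 0 := mul_ne_zero (hF0 1) (hF0 2)
  haveI : Fact (P 2).Prime := ⟨(h.hP 2).1⟩
  have hq : Splits ((F 0 * F 2 : ℤ) : ℚ_[P 2]) ((F 1 * F 2 : ℤ) : ℚ_[P 2]) := by
    apply pf0 (F 0 * F 2) (F 1 * F 2) hA hB (P 2) hre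
    intro p hp hp2
    exact hloc p hp2
  have hall : ∀ (p : ℕ) [Fact p.Prime],
      Splits ((F 0 * F 2 : ℤ) : ℚ_[p]) ((F 1 * F 2 : ℤ) : ℚ_[p]) := by
    intro p hp
    by_cases hp2 : p = P 2
    · subst hp2
      exact hq
    · exact hloc p hp2
  have hQ := Pool.Agent.W174.HB.hm_ (F 0 * F 2) (F 1 * F 2) hA hB hre hall
  apply sol_of_splits (by exact_mod_cast hF0 2)
  push_cast at hQ
  exact hQ

/-! ### The choice of the signs -/

theorem pm_mul {a b : ℤ} (ha : a = 1 ∨ a = -1) (hb : b = 1 ∨ b = -1) : a * b = 1 ∨ a * b = -1 := by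
  rcases ha with rfl | rfl <;> rcases hb with rfl | rfl <;> simp

theorem pm_sq {a : ℤ} (ha : a = 1 ∨ a = -1) : a * a = 1 := by
  rcases ha with rfl | rfl <;> simp

theorem jac_pm_nat {M : ℕ} {G p : ℕ} (hp : p.Prime) (hpM : ¬ p ∣ M) (hG : G ∣ M) :
    jacobiSym (G : ℤ) p = 1 ∨ jacobiSym (G : ℤ) p = -1 := by
  apply jacobiSym.eq_one_or_neg_one
  rw [Int.gcd_natCast_natCast]
  exact ((Nat.Prime.coprime_iff_not_dvd hp).2 (fun h => hpM (h.trans hG))).symm

theorem jac_pm_sign {s : ℤ} (hs : s = 1 ∨ s = -1) (b : ℕ) :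
    jacobiSym s b = 1 ∨ jacobiSym s b = -1 := by
  apply jacobiSym.eq_one_or_neg_one
  rcases hs with rfl | rfl <;> simp

/-- the sign attached to `(s_i s_j g_i g_j | P_l)` -/
noncomputable def kap (g : Fin 3 → ℕ) (s : Fin 3 → ℤ) (i j : Fin 3) (b : ℕ) : ℤ :=
  jacobiSym (s i) b * jacobiSym (s j) b * (jacobiSym (g i : ℤ) b * jacobiSym (g j : ℤ) b)

theorem jac_prod {M : ℕ} {f : Fin 3 → ℤ} {g : Fin 3 → ℕ} {s : Fin 3 → ℤ}
    {F : Fin 3 → ℤ} {P : Fin 3 → ℕ} (hs : ∀ l, s l = 1 ∨ s l = -1)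
    (h : Smp M f g s F P) (i j : Fin 3) (b : ℕ) :
    jacobiSym (F i * F j) b =
      kap g s i j b * (jacobiSym (P i : ℤ) b * jacobiSym (P j : ℤ) b) := by
  have e : ∀ l, F l = s l * (g l * P l) := by
    intro l
    rw [← (h.hP l).2, ← mul_assoc, pm_sq (hs l), one_mul]
  rw [e i, e j]
  unfold kap
  simp only [jacobiSym.mul_left]
  ring

/-- Part ARI. -/
theorem ari_ : S_ARI := by
  intro M f g s hM h2M hg hf hs h1 h2 hl
  have hgp : ∀ l, 0 < g l := fun l => Nat.pos_of_dvd_of_pos (hg l).1 hM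
  by_cases hex : ∃ F P, Smp M f g s F P
  swap
  · refine ⟨fun _ _ => 1, fun _ _ => Or.inl rfl, ?_⟩
    intro F hF P hP _
    exact absurd ⟨F, P, ⟨hF, hP⟩⟩ hex
  obtain ⟨F', P', h'⟩ := hex
  have hnd' := h'.ndvd hM hg hs hf
  have hod' := h'.odd hM h2M hg hs hf
  have kpm : ∀ i j l, kap g s i j (P' l) = 1 ∨ kap g s i j (P' l) = -1 := by
    intro i j l
    unfold kap
    apply pm_mul
    · exact pm_mul (jac_pm_sign (hs i) _) (jac_pm_sign (hs j) _)
    · exact pm_mul (jac_pm_nat (h'.hP l).1 (hnd' l) (hg i).1)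
        (jac_pm_nat (h'.hP l).1 (hnd' l) (hg j).1)
  set e02 : ℤ := kap g s 1 2 (P' 0) * (qr (P' 1) (P' 0) * qr (P' 2) (P' 0)) with he02
  set e12 : ℤ := kap g s 0 2 (P' 1) * qr (P' 2) (P' 1) with he12
  have p02 : e02 = 1 ∨ e02 = -1 := pm_mul (kpm _ _ _) (pm_mul (qr_sq _ _) (qr_sq _ _))
  have p12 : e12 = 1 ∨ e12 = -1 := pm_mul (kpm _ _ _) (qr_sq _ _)
  refine ⟨fun l l' => if l = 0 ∧ l' = 1 then 1 else if l = 0 then e02 else e12, ?_, ?_⟩
  · intro l l'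
    dsimp only
    split_ifs
    · exact Or.inl rfl
    · exact p02
    · exact p12
  intro F hF P hP hJ
  have h : Smp M f g s F P := ⟨hF, hP⟩
  have hnd := h.ndvd hM hg hs hf
  have hod := h.odd hM h2M hg hs hf
  have hcls : ∀ l, P l ≡ P' l [MOD (M / g l)] := by
    intro l
    obtain ⟨n, hn, -⟩ := hf l
    exact h.cls h' hM (fun l => (hg l).1) hs l hn
  have hcls4 : ∀ l, P l ≡ P' l [MOD 4] := by
    intro l
    have h8 : 8 ∣ M / g l := by simpa using (hg l).2 2 Nat.prime_two h2M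
    exact (hcls l).of_dvd ((by norm_num : (4 : ℕ) ∣ 8).trans h8)
  have kcls : ∀ i j l, kap g s i j (P l) = kap g s i j (P' l) := by
    intro i j l
    unfold kap
    rw [jac_sign (hod l) (hod' l) (hcls4 l) (hs i), jac_sign (hod l) (hod' l) (hcls4 l) (hs j),
      jac_class h2M (hg l).2 (hod l) (hod' l) (hcls l) (g i)
        (fun p _ hp => hp.trans (hg i).1) (hgp i).ne',
      jac_class h2M (hg l).2 (hod l) (hod' l) (hcls l) (g j)
        (fun p _ hp => hp.trans (hg j).1) (hgp j).ne']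
  have J01 : jacobiSym (P 0 : ℤ) (P 1) = 1 := by
    have := hJ 0 1 (by decide)
    simpa using this
  have J02 : jacobiSym (P 0 : ℤ) (P 2) = e02 := by
    have := hJ 0 2 (by decide)
    simpa using this
  have J12 : jacobiSym (P 1 : ℤ) (P 2) = e12 := by
    have := hJ 1 2 (by decide)
    simpa using this
  have hne : ∀ l l', (jacobiSym (P l : ℤ) (P l') = 1 ∨ jacobiSym (P l : ℤ) (P l') = -1) →
      P l ≠ P l' := by
    intro l l' hj he
    have h3 : jacobiSym (P l : ℤ) (P l') = 0 := by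
      rw [jacobiSym.eq_zero_iff]
      refine ⟨(hP l').1.ne_zero, ?_⟩
      rw [Int.gcd_natCast_natCast, he, Nat.gcd_self]
      exact (hP l').1.one_lt.ne'
    rw [h3] at hj
    rcases hj with hj | hj <;> norm_num at hj
  have h01 : P 0 ≠ P 1 := hne 0 1 (Or.inl J01)
  have h02 : P 0 ≠ P 2 := hne 0 2 (J02 ▸ p02)
  have h12 : P 1 ≠ P 2 := hne 1 2 (J12 ▸ p12)
  refine sol_main hM h2M hg hf hs h1 h2 hl h h01 h02 h12 ?_ ?_
  · rw [jac_prod hs h 1 2, jac_swap (hod 1) (hod 0), jac_swap (hod 2) (hod 0), J01, J02,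
      kcls 1 2 0, qr_class (hcls4 1) (hcls4 0), qr_class (hcls4 2) (hcls4 0)]
    have := pm_sq p02
    calc _ = e02 * e02 := by rw [he02]; ring
      _ = 1 := this
  · rw [jac_prod hs h 0 2, J01, jac_swap (hod 2) (hod 1), J12,
      kcls 0 2 1, qr_class (hcls4 2) (hcls4 1)]
    have := pm_sq p12
    calc _ = e12 * e12 := by rw [he12]; ring
      _ = 1 := this

end Pool.Agent.N286.DC
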